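import Pool.Agent.KS6_77.RcD.Main

set_option autoImplicit false

namespace Pool.Agent.Results.MP_c5d79e_gt.HereditaryClosures

open Set Topology Cardinal

/-- `Z` is homeomorphic to a closed subspace of a power of the real line -/
def Realcompact (Z : Type) [TopologicalSpace Z] : Prop :=
  ∃ (ι : Type) (e : Z → (ι → ℝ)), IsClosedEmbedding e

/-- the continuous real functions on `X`; as a subspace of `X → ℝ` this is `C_p(X)` -/
def Cp (X : Type) [TopologicalSpace X] : Set (X → ℝ) := {f | Continuous f}

/-- **Closures of discrete subsets of `C_p(X)` can be hereditarily realcompact (and condense onto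
separable metrizable spaces) while `C_p(X)` is not realcompact.** Here `X` is a subspace of the
Cantor cube `2^{ω₂}`, and the failure is witnessed by a non-isolated point `p` which is separated
by a clopen set from every countable set not containing it. -/
theorem result :
    ∃ (X : Set ((Order.succ ℵ₁ : Cardinal.{0}).ord.ToType → Bool)) (p : X),
      (∀ D : Set (X → ℝ), D ⊆ Cp X → DiscreteTopology D →
        (∃ Q : Set X, Q.Countable ∧
          ∀ f ∈ closure D ∩ Cp X, ∀ g ∈ closure D ∩ Cp X, EqOn f g Q → f = g) ∧
        ∀ Z : Set (X → ℝ), Z ⊆ closure D ∩ Cp X → Realcompact Z) ∧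
      ¬ Realcompact (Cp X) ∧
      p ∈ closure ({p}ᶜ : Set X) ∧
      ∀ Q : Set X, Q.Countable → p ∉ Q → ∃ U : Set X, IsClopen U ∧ p ∈ U ∧ Disjoint U Q :=
  Pool.Agent.KS6_77.RcD.main

end Pool.Agent.Results.MP_c5d79e_gt.HereditaryClosures
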